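import Mathlib
import Pool.Agent.helper7.Hex.Rows
import Pool.Agent.helper89.Segre2.Flip
import Pool.Agent.helper89.Segre2.Split
import Pool.Agent.helper89.Segre.Final

set_option autoImplicit false
set_option linter.unnecessarySeqFocus false

/-!
# Nagata's theorem for sixteen points

Sixteen points of multiplicity `m` kill all polynomials of degree at most `4 m`.
-/

namespace Pool.Agent.helper41.Nag16

open Pool.Agent.helper89.Segre Pool.Agent.helper7.Hex

/-- numbers `m, …, 1` on the rows `a, …, a + m - 1` -/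
lemma slice_desc {n m a : ℕ} {y : ℕ → ℕ} (hn : a + m ≤ n) (h0 : ∀ b < a, y b = 0)
    (hy : ∀ i < m, m - i ≤ y (a + i)) :
    Slice n m y (fun b => if a ≤ b ∧ b < a + m then m - (b - a) else 0) (fun k => a + m - k) := by
  refine ⟨fun b hb => ?_, fun k h1 h2 => ?_, fun b hb hc => ?_, fun b hb hc k h1 h2 => ?_⟩
  · try dsimp only
    split_ifs with h
    · have := hy (b - a) (by omega)
      rwa [show a + (b - a) = b by omega] at this
    · omega
  · try dsimp only
    refine ⟨by omega, ?_⟩
    rw [if_pos (by omega)]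
    omega
  · try dsimp only at hc ⊢
    split_ifs at hc ⊢ with h
    · omega
    · omega
  · try dsimp only at hc h1 ⊢
    split_ifs at hc h1 with h
    · omega
    · by_contra hcon
      have : b < a := by omega
      have := h0 b this
      omega

/-- numbers `1, …, m` on the rows `a, …, a + m - 1`, which are exhausted -/
lemma slice_asc {n m a : ℕ} {y : ℕ → ℕ} (hn : a + m ≤ n) (h0 : ∀ b < a, y b = 0)
    (hy : ∀ i < m, y (a + i) = i + 1) :
    Slice n m y (fun b => if a ≤ b ∧ b < a + m then b - a + 1 else 0) (fun k => a + k - 1) := by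
  have hy' : ∀ b, a ≤ b → b < a + m → y b = b - a + 1 := by
    intro b h1 h2
    have := hy (b - a) (by omega)
    rwa [show a + (b - a) = b by omega] at this
  refine ⟨fun b hb => ?_, fun k h1 h2 => ?_, fun b hb hc => ?_, fun b hb hc k h1 h2 => ?_⟩
  · try dsimp only
    split_ifs with h
    · rw [hy' b h.1 h.2]
    · omega
  · try dsimp only
    refine ⟨by omega, ?_⟩
    rw [if_pos (by omega)]
    omega
  · try dsimp only at hc ⊢
    split_ifs at hc ⊢ with h
    · omega
    · omega
  · try dsimp only at hc h1 ⊢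
    split_ifs at hc h1 with h
    · have := hy' b h.1 h.2
      omega
    · by_contra hcon
      have : b < a := by omega
      have := h0 b this
      omega

lemma boxl_congr {n : ℕ} {l y y' : ℕ → ℕ} (h : ∀ b < n, y' b = y b) :
    boxl n l y' = boxl n l y := by
  ext e
  rw [mem_boxl, mem_boxl]
  constructor
  · rintro ⟨h1, h2, h3⟩
    rw [h _ h1] at h3
    exact ⟨h1, h2, h3⟩
  · rintro ⟨h1, h2, h3⟩
    rw [← h _ h1] at h3
    exact ⟨h1, h2, h3⟩

lemma step {n μ : ℕ} {l y c r : ℕ → ℕ} (h : Slice n μ y c r) (y' : ℕ → ℕ)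
    (hy' : ∀ b < n, y' b = y b - c b) {ms : Multiset ℕ}
    (hg : Good ℂ (boxl n l y') ms (boxl n l y').card) :
    Good ℂ (boxl n l y) (μ ::ₘ ms) (boxl n l y).card := by
  have h1 : boxl n l y' = boxl n l (fun b => y b - c b) := boxl_congr hy'
  rw [h1] at hg
  have h2 := slice_goodl h hg
  have h3 : (μ + 1).choose 2 + (boxl n l (fun b => y b - c b)).card = (boxl n l y).card := by
    rw [card_boxl, card_boxl, ← h.sum, ← Finset.sum_add_distrib]
    apply Finset.sum_congr rfl
    intro b hb
    have := h.le b (Finset.mem_range.mp hb)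
    omega
  rwa [h3] at h2

/-- `m, …, 1` on rows `a, …, a + m - 1`. -/
lemma step_desc {n m a : ℕ} {l y : ℕ → ℕ} (y' : ℕ → ℕ) (hn : a + m ≤ n) (h0 : ∀ b < a, y b = 0)
    (hy : ∀ i < m, m - i ≤ y (a + i))
    (h1 : ∀ b, a ≤ b → b < a + m → y' b = y b - (m - (b - a)))
    (h2 : ∀ b < n, b < a ∨ a + m ≤ b → y' b = y b) {ms : Multiset ℕ}
    (hg : Good ℂ (boxl n l y') ms (boxl n l y').card) :
    Good ℂ (boxl n l y) (m ::ₘ ms) (boxl n l y).card := by
  refine step (slice_desc hn h0 hy) y' ?_ hg
  intro b hb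
  try dsimp only
  split_ifs with h
  · exact h1 b h.1 h.2
  · rw [h2 b hb (by omega)]; omega

/-- `1, …, m` on rows `a, …, a + m - 1`. -/
lemma step_asc {n m a : ℕ} {l y : ℕ → ℕ} (y' : ℕ → ℕ) (hn : a + m ≤ n) (h0 : ∀ b < a, y b = 0)
    (hy : ∀ i < m, y (a + i) = i + 1)
    (h1 : ∀ b, a ≤ b → b < a + m → y' b = 0)
    (h2 : ∀ b < n, b < a ∨ a + m ≤ b → y' b = y b) {ms : Multiset ℕ}
    (hg : Good ℂ (boxl n l y') ms (boxl n l y').card) :
    Good ℂ (boxl n l y) (m ::ₘ ms) (boxl n l y).card := by
  refine step (slice_asc hn h0 hy) y' ?_ hg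
  intro b hb
  try dsimp only
  split_ifs with h
  · rw [h1 b h.1 h.2]
    have := hy (b - a) (by omega)
    rw [show a + (b - a) = b by omega] at this
    omega
  · rw [h2 b hb (by omega)]; omega

lemma good_nil {n : ℕ} {l y : ℕ → ℕ} (h : ∀ b < n, y b = 0) (ms : Multiset ℕ) :
    Good ℂ (boxl n l y) ms (boxl n l y).card := by
  have : (boxl n l y).card = 0 := by
    rw [card_boxl]
    apply Finset.sum_eq_zero
    intro b hb
    exact h b (Finset.mem_range.mp hb)
  rw [this]
  exact good_zero (K := ℂ) _ _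

/-- Piece `A`: seven points. -/
lemma pieceA (m : ℕ) (l : ℕ → ℕ) :
    Good ℂ (boxl (4 * m + 1) l (fun b => if b < 2 * m then m + 1 else
      if b ≤ 3 * m + 1 then m else 4 * m + 1 - b)) (Multiset.replicate 7 m)
      (boxl (4 * m + 1) l (fun b => if b < 2 * m then m + 1 else
      if b ≤ 3 * m + 1 then m else 4 * m + 1 - b)).card := by
  rw [show Multiset.replicate 7 m = m ::ₘ m ::ₘ m ::ₘ m ::ₘ m ::ₘ m ::ₘ m ::ₘ 0 by rfl]
  -- 1
  refine step_desc (a := 0) (fun b => if b < m then b + 1 else if b < 2 * m then m + 1 else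
      if b ≤ 3 * m + 1 then m else 4 * m + 1 - b) (by omega) (by omega) ?_ ?_ ?_ ?_
  · intro i hi; split_ifs <;> omega
  · intro b h1 h2; split_ifs <;> omega
  · intro b h1 h2; split_ifs <;> omega
  -- 2
  refine step_asc (a := 0) (fun b => if b < m then 0 else if b < 2 * m then m + 1 else
      if b ≤ 3 * m + 1 then m else 4 * m + 1 - b) (by omega) (by omega) ?_ ?_ ?_ ?_
  · intro i hi; split_ifs <;> omega
  · intro b h1 h2; split_ifs <;> omega
  · intro b h1 h2; split_ifs <;> omega
  -- 3
  refine step_desc (a := m) (fun b => if b < m then 0 else if b < 2 * m then b - m + 1 else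
      if b ≤ 3 * m + 1 then m else 4 * m + 1 - b) (by omega) ?_ ?_ ?_ ?_ ?_
  · intro b hb; split_ifs <;> omega
  · intro i hi; split_ifs <;> omega
  · intro b h1 h2; split_ifs <;> omega
  · intro b h1 h2; split_ifs <;> omega
  -- 4
  refine step_asc (a := m) (fun b => if b < 2 * m then 0 else
      if b ≤ 3 * m + 1 then m else 4 * m + 1 - b) (by omega) ?_ ?_ ?_ ?_ ?_
  · intro b hb; split_ifs <;> omega
  · intro i hi; split_ifs <;> omega
  · intro b h1 h2; split_ifs <;> omega
  · intro b h1 h2; split_ifs <;> omega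
  -- 5
  refine step_desc (a := 2 * m) (fun b => if b < 2 * m then 0 else if b < 3 * m then b - 2 * m else
      if b ≤ 3 * m + 1 then m else 4 * m + 1 - b) (by omega) ?_ ?_ ?_ ?_ ?_
  · intro b hb; split_ifs <;> omega
  · intro i hi; split_ifs <;> omega
  · intro b h1 h2; split_ifs <;> omega
  · intro b h1 h2; split_ifs <;> omega
  -- 6
  refine step_asc (a := 2 * m + 1) (fun b => if b < 3 * m + 1 then 0 else
      if b ≤ 3 * m + 1 then m else 4 * m + 1 - b) (by omega) ?_ ?_ ?_ ?_ ?_
  · intro b hb; split_ifs <;> omega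
  · intro i hi; split_ifs <;> omega
  · intro b h1 h2; split_ifs <;> omega
  · intro b h1 h2; split_ifs <;> omega
  -- 7
  refine step_desc (a := 3 * m + 1) (fun b => 0) (by omega) ?_ ?_ ?_ ?_ ?_
  · intro b hb; split_ifs <;> omega
  · intro i hi; split_ifs <;> omega
  · intro b h1 h2; split_ifs <;> omega
  · intro b h1 h2; split_ifs <;> omega
  exact good_nil (fun b _ => rfl) 0

/-- Piece `B`: five points. -/
lemma pieceB (m : ℕ) (l : ℕ → ℕ) :
    Good ℂ (boxl (3 * m + 1) l (fun b => if b < m + 1 then m else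
      if b < 2 * m + 1 then m + 1 else 3 * m + 1 - b)) (Multiset.replicate 5 m)
      (boxl (3 * m + 1) l (fun b => if b < m + 1 then m else
      if b < 2 * m + 1 then m + 1 else 3 * m + 1 - b)).card := by
  rw [show Multiset.replicate 5 m = m ::ₘ m ::ₘ m ::ₘ m ::ₘ m ::ₘ 0 by rfl]
  -- 1
  refine step_desc (a := 0) (fun b => if b < m then b else if b < m + 1 then m else
      if b < 2 * m + 1 then m + 1 else 3 * m + 1 - b) (by omega) (by omega) ?_ ?_ ?_ ?_
  · intro i hi; split_ifs <;> omega
  · intro b h1 h2; split_ifs <;> omega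
  · intro b h1 h2; split_ifs <;> omega
  -- 2
  refine step_asc (a := 1) (fun b => if b < m + 1 then 0 else
      if b < 2 * m + 1 then m + 1 else 3 * m + 1 - b) (by omega) ?_ ?_ ?_ ?_ ?_
  · intro b hb; split_ifs <;> omega
  · intro i hi; split_ifs <;> omega
  · intro b h1 h2; split_ifs <;> omega
  · intro b h1 h2; split_ifs <;> omega
  -- 3
  refine step_desc (a := m + 1) (fun b => if b < m + 1 then 0 else
      if b < 2 * m + 1 then b - m else 3 * m + 1 - b) (by omega) ?_ ?_ ?_ ?_ ?_
  · intro b hb; split_ifs <;> omega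
  · intro i hi; split_ifs <;> omega
  · intro b h1 h2; split_ifs <;> omega
  · intro b h1 h2; split_ifs <;> omega
  -- 4
  refine step_asc (a := m + 1) (fun b => if b < 2 * m + 1 then 0 else 3 * m + 1 - b)
    (by omega) ?_ ?_ ?_ ?_ ?_
  · intro b hb; split_ifs <;> omega
  · intro i hi; split_ifs <;> omega
  · intro b h1 h2; split_ifs <;> omega
  · intro b h1 h2; split_ifs <;> omega
  -- 5
  refine step_desc (a := 2 * m + 1) (fun b => 0) (by omega) ?_ ?_ ?_ ?_ ?_
  · intro b hb; split_ifs <;> omega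
  · intro i hi; split_ifs <;> omega
  · intro b h1 h2; split_ifs <;> omega
  · intro b h1 h2; split_ifs <;> omega
  exact good_nil (fun b _ => rfl) 0

/-- Piece `C`: four points. -/
lemma pieceC (m : ℕ) : Good ℂ ((tri (4 * m)).filter (fun e => 2 * m + 1 ≤ e.1))
    (Multiset.replicate 4 m) ((tri (4 * m)).filter (fun e => 2 * m + 1 ≤ e.1)).card := by
  classical
  have h1 : Good ℂ ((tri (4 * m)).filter (fun e => e.1 + e.2 < 2 * m)) {m, m, m, m}
      ((tri (4 * m)).filter (fun e => e.1 + e.2 < 2 * m)).card := by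
    apply good_four (p := 0)
    intro e he
    rw [Finset.mem_filter] at he
    omega
  have h2 := h1.shift (2 * m + 1)
  have h3 : ((tri (4 * m)).filter (fun e => e.1 + e.2 < 2 * m)).image
      (fun e => (e.1 + (2 * m + 1), e.2)) = (tri (4 * m)).filter (fun e => 2 * m + 1 ≤ e.1) := by
    ext ⟨a, b⟩
    simp only [Finset.mem_image, Finset.mem_filter, mem_tri, Prod.exists, Prod.mk.injEq]
    constructor
    · rintro ⟨a', b', ⟨h1, h2⟩, rfl, rfl⟩
      omega
    · rintro ⟨h1, h2⟩
      exact ⟨a - (2 * m + 1), b, by omega, by omega, rfl⟩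
  rw [h3] at h2
  have h4 : ((tri (4 * m)).filter (fun e => 2 * m + 1 ≤ e.1)).card =
      ((tri (4 * m)).filter (fun e => e.1 + e.2 < 2 * m)).card := by
    rw [← h3]
    apply Finset.card_image_of_injective
    intro a b hab
    simp only [Prod.mk.injEq] at hab
    ext
    · omega
    · exact hab.2
  rw [h4]
  exact h2

/-- Nagata's theorem for 16 points: full rank on the triangle of side `4 m + 1` (for `m = 0` this is
false: the rank is `0`). -/
theorem good16 (m : ℕ) (hm : 0 < m) :
    Good ℂ (tri (4 * m)) (Multiset.replicate 16 m) (tri (4 * m)).card := by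
  classical
  set DC := (tri (4 * m)).filter (fun e => 2 * m + 1 ≤ e.1) with hDC
  set DB := (tri (4 * m)).filter (fun e => ¬ 2 * m + 1 ≤ e.1 ∧
    (m + 1 ≤ e.1 ∨ (m ≤ e.1 ∧ 2 * m ≤ e.2))) with hDB
  set DA := (tri (4 * m)).filter (fun e => ¬ 2 * m + 1 ≤ e.1 ∧
    ¬ (m + 1 ≤ e.1 ∨ (m ≤ e.1 ∧ 2 * m ≤ e.2))) with hDA
  have hC : Good ℂ DC (Multiset.replicate 4 m) DC.card := pieceC m
  have hB : Good ℂ DB (Multiset.replicate 5 m) DB.card := by
    refine (pieceB m (fun b => if b < 2 * m then m + 1 else m)).of_subset ?_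
    intro e he
    rw [hDB, Finset.mem_filter, mem_tri] at he
    rw [mem_boxl]
    refine ⟨by omega, ?_, ?_⟩
    · split_ifs <;> omega
    · split_ifs <;> omega
  have hA : Good ℂ DA (Multiset.replicate 7 m) DA.card := by
    refine (pieceA m (fun _ => 0)).of_subset ?_
    intro e he
    rw [hDA, Finset.mem_filter, mem_tri] at he
    rw [mem_boxl]
    refine ⟨by omega, Nat.zero_le _, ?_⟩
    · split_ifs <;> omega
  have h1 := Good.split (DA := DB) (DB := DA) (by
    intro e he e' he'
    rw [hDB, Finset.mem_filter, mem_tri] at he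
    rw [hDA, Finset.mem_filter, mem_tri] at he'
    omega) hB hA
  have h2 := Good.split (DA := DC) (DB := DB ∪ DA) (by
    intro e he e' he'
    rw [hDC, Finset.mem_filter, mem_tri] at he
    rw [Finset.mem_union, hDB, hDA, Finset.mem_filter, Finset.mem_filter, mem_tri] at he'
    omega) hC h1
  have h3 : DC ∪ (DB ∪ DA) = tri (4 * m) := by
    ext e
    rw [Finset.mem_union, Finset.mem_union, hDC, hDB, hDA, Finset.mem_filter, Finset.mem_filter,
      Finset.mem_filter]
    tauto
  have h4 : DC.card + (DB.card + DA.card) = (tri (4 * m)).card := by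
    rw [← h3, Finset.card_union_of_disjoint, Finset.card_union_of_disjoint]
    · rw [Finset.disjoint_left]
      intro e he he'
      rw [hDB, Finset.mem_filter] at he
      rw [hDA, Finset.mem_filter] at he'
      exact he'.2.2 he.2.2
    · rw [Finset.disjoint_left]
      intro e he he'
      rw [hDC, Finset.mem_filter] at he
      rw [Finset.mem_union, hDB, hDA, Finset.mem_filter, Finset.mem_filter] at he'
      rcases he' with he' | he'
      · exact he'.2.1 he.2
      · exact he'.2.1 he.2
  rw [h3, h4] at h2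
  have h5 : Multiset.replicate 4 m + (Multiset.replicate 5 m + Multiset.replicate 7 m) =
      Multiset.replicate 16 m := by
    rw [← Multiset.replicate_add, ← Multiset.replicate_add]
  rwa [h5] at h2

end Pool.Agent.helper41.Nag16
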